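import Pool.Agent.Helper59.Wav.Defs
import Pool.Agent.Helper76.Wav.Kron
import Pool.Agent.Helper22.Wav.Marg
import Pool.Agent.Helper67.Wav.Four

/-!
# Module ND of MP_d629b1_an: orthogonality relations extended by Kronecker density
-/

open MeasureTheory
open scoped FourierTransform RealInnerProductSpace Matrix ENNReal ComplexConjugate

noncomputable section

namespace Wav

namespace ND

variable {n : ℕ}

theorem ee_add (a b : ℝ) : ee (a + b) = ee a * ee b := by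
  unfold ee
  rw [← Complex.exp_add]
  congr 1
  push_cast
  ring

theorem act_cont (M : Matrix (Fin n) (Fin n) ℝ) : Continuous (act M : E n → E n) := by
  rw [act_eq]
  exact LinearMap.continuous_of_finiteDimensional _

theorem act_zpow_add {A : Matrix (Fin n) (Fin n) ℝ} (hA : A.det ≠ 0) (i j : ℤ) (x : E n) :
    act (A ^ (i + j)) x = act (A ^ i) (act (A ^ j) x) := by
  rw [Matrix.zpow_add (isUnit_iff_ne_zero.2 hA), act_mul]

theorem act_zpow_neg_cancel {A : Matrix (Fin n) (Fin n) ℝ} (hA : A.det ≠ 0) (i : ℤ) (x : E n) :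
    act (A ^ (-i)) (act (A ^ i) x) = x := by
  rw [← act_zpow_add hA, neg_add_cancel, zpow_zero, act_one]

theorem act_zpow_cancel {A : Matrix (Fin n) (Fin n) ℝ} (hA : A.det ≠ 0) (i : ℤ) (x : E n) :
    act (A ^ i) (act (A ^ (-i)) x) = x := by
  rw [← act_zpow_add hA, add_neg_cancel, zpow_zero, act_one]

theorem inner_act_zpow (A : Matrix (Fin n) (Fin n) ℝ) (i : ℤ) (x y : E n) :
    ⟪act (A ^ i) x, y⟫ = ⟪x, act (Aᵀ ^ i) y⟫ := by
  rw [inner_act, Matrix.transpose_zpow]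

/-- The product `conj (Φ (B^-i ξ)) * Ψ (B^-j ξ)`. -/
def G (A : Matrix (Fin n) (Fin n) ℝ) (Φ Ψ : E n → ℂ) (i j : ℤ) (ξ : E n) : ℂ :=
  conj (Φ (act (Aᵀ ^ (-i)) ξ)) * Ψ (act (Aᵀ ^ (-j)) ξ)

theorem memLp_comp {A : Matrix (Fin n) (Fin n) ℝ} (hA : A.det ≠ 0) {Ψ : E n → ℂ}
    (hΨ : MemLp Ψ 2 volume) (j : ℤ) : MemLp (fun ξ => Ψ (act (Aᵀ ^ j) ξ)) 2 volume := by
  have hAt : Aᵀ.det ≠ 0 := by rwa [Matrix.det_transpose]
  have hj : (Aᵀ ^ j).det ≠ 0 := by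
    rw [det_zpow' hAt]
    exact zpow_ne_zero _ hAt
  have h1 : MemLp Ψ 2 (Measure.map (act (Aᵀ ^ j)) (volume : Measure (E n))) := by
    rw [map_act hj]
    exact hΨ.smul_measure ENNReal.ofReal_ne_top
  exact h1.comp_of_map (act_emb hj).measurable.aemeasurable

theorem G_integrable {A : Matrix (Fin n) (Fin n) ℝ} (hA : A.det ≠ 0) {Φ Ψ : E n → ℂ}
    (hΦ : MemLp Φ 2 volume) (hΨ : MemLp Ψ 2 volume) (i j : ℤ) :
    Integrable (G A Φ Ψ i j) := by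
  have h1 := memLp_comp hA hΦ (-i)
  have h2 := memLp_comp hA hΨ (-j)
  have h3 : MemLp (fun ξ => conj (Φ (act (Aᵀ ^ (-i)) ξ))) 2 volume := h1.star
  exact h3.integrable_mul h2

theorem ee_smul_integrable {g : E n → ℂ} (hg : Integrable g) (w : E n) :
    Integrable (fun ξ => g ξ * ee ⟪w, ξ⟫) := by
  refine hg.norm.mono' (hg.aestronglyMeasurable.mul
    (ee_cont.comp (Continuous.inner continuous_const continuous_id)).aestronglyMeasurable)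
    (Filter.Eventually.of_forall fun ξ => ?_)
  rw [norm_mul, ee_norm, mul_one]

theorem I_cont {g : E n → ℂ} (hg : Integrable g) :
    Continuous fun w : E n => ∫ ξ, g ξ * ee ⟪w, ξ⟫ := by
  refine continuous_of_dominated (bound := fun ξ => ‖g ξ‖) ?_ ?_ hg.norm ?_
  · intro w
    exact (ee_smul_integrable hg w).aestronglyMeasurable
  · intro w
    refine Filter.Eventually.of_forall fun ξ => ?_
    rw [norm_mul, ee_norm, mul_one]
  · refine Filter.Eventually.of_forall fun ξ => ?_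
    exact continuous_const.mul (ee_cont.comp (Continuous.inner continuous_id continuous_const))

theorem faff_mul (A : Matrix (Fin n) (Fin n) ℝ) (Φ Ψ : E n → ℂ) (i j : ℤ) (k k' : Fin n → ℤ)
    (ξ : E n) :
    conj (faff A Φ i k ξ) * faff A Ψ j k' ξ =
      (((|A.det| ^ (-(i : ℝ) / 2) : ℝ) : ℂ) * ((|A.det| ^ (-(j : ℝ) / 2) : ℝ) : ℂ)) *
        (G A Φ Ψ i j ξ *
          ee ⟪act (A ^ (-i)) (ivec k) - act (A ^ (-j)) (ivec k'), ξ⟫) := by
  unfold faff G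
  rw [map_mul, map_mul, Complex.conj_ofReal, ee_conj, neg_neg, inner_sub_left, sub_eq_add_neg,
    ee_add, Matrix.transpose_zpow, Matrix.transpose_zpow]
  ring

theorem I_lattice {A : Matrix (Fin n) (Fin n) ℝ} (hA : A.det ≠ 0) {Φ Ψ : E n → ℂ} (i j : ℤ)
    (horth : ∀ k k' : Fin n → ℤ, ∫ ξ, conj (faff A Φ i k ξ) * faff A Ψ j k' ξ = 0)
    (k k' : Fin n → ℤ) :
    ∫ ξ, G A Φ Ψ i j ξ * ee ⟪act (A ^ (-i)) (ivec k) - act (A ^ (-j)) (ivec k'), ξ⟫ = 0 := by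
  have h := horth k k'
  simp only [faff_mul] at h
  rw [integral_const_mul] at h
  have hD : 0 < |A.det| := abs_pos.2 hA
  have h1 : ((|A.det| ^ (-(i : ℝ) / 2) : ℝ) : ℂ) ≠ 0 := by
    exact_mod_cast (Real.rpow_pos_of_pos hD _).ne'
  have h2 : ((|A.det| ^ (-(j : ℝ) / 2) : ℝ) : ℂ) ≠ 0 := by
    exact_mod_cast (Real.rpow_pos_of_pos hD _).ne'
  exact (mul_eq_zero.1 h).resolve_left (mul_ne_zero h1 h2)

theorem ivec_zero : ivec (0 : Fin n → ℤ) = 0 := by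
  ext a
  simp [ivec]

theorem ivec_neg (k : Fin n → ℤ) : ivec (-k) = -ivec k := by
  ext a
  simp [ivec]

theorem act_zero (M : Matrix (Fin n) (Fin n) ℝ) : act M (0 : E n) = 0 := by
  rw [act_eq]; exact map_zero _

theorem act_neg (M : Matrix (Fin n) (Fin n) ℝ) (x : E n) : act M (-x) = -act M x := by
  rw [act_eq]; exact map_neg _ _

theorem inner_ivec (k q : Fin n → ℤ) : ∃ m : ℤ, ⟪ivec k, ivec q⟫ = m := by
  refine ⟨∑ a, k a * q a, ?_⟩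
  simp only [ivec, EuclideanSpace.inner_eq_star_dotProduct, star_trivial, dotProduct]
  push_cast
  exact Finset.sum_congr rfl fun a _ => mul_comm _ _

theorem inner_lattice {A : Matrix (Fin n) (Fin n) ℝ} (hA : A.det ≠ 0) (i : ℤ)
    (k p : Fin n → ℤ) : ⟪act (A ^ (-i)) (ivec k), act (Aᵀ ^ i) (ivec p)⟫ = ⟪ivec k, ivec p⟫ := by
  rw [inner_act_zpow]
  have hAt : Aᵀ.det ≠ 0 := by rwa [Matrix.det_transpose]
  rw [act_zpow_neg_cancel hAt]

theorem mem_closure_lattice {A : Matrix (Fin n) (Fin n) ℝ} (hA : A.det ≠ 0) (i j : ℤ) (w : E n)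
    (hw : ∀ p q : Fin n → ℤ, act (Aᵀ ^ i) (ivec p) = act (Aᵀ ^ j) (ivec q) →
      ∃ m : ℤ, ⟪w, act (Aᵀ ^ i) (ivec p)⟫ = m) :
    w ∈ closure {x : E n | ∃ k k' : Fin n → ℤ,
      x = act (A ^ (-i)) (ivec k) - act (A ^ (-j)) (ivec k')} := by
  have hAt : Aᵀ.det ≠ 0 := by rwa [Matrix.det_transpose]
  have h1 := kronecker (A ^ (i - j)) (act (A ^ i) w).ofLp (by
    intro q hq
    choose p hp using hq
    have e1 : act (Aᵀ ^ (i - j)) (ivec q) = ivec p := by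
      rw [← Matrix.transpose_zpow]
      ext a
      exact hp a
    have e2 : act (Aᵀ ^ i) (ivec q) = act (Aᵀ ^ j) (ivec p) := by
      rw [← e1, ← act_zpow_add hAt]
      congr 2
      ring
    obtain ⟨m, hm⟩ := hw q p e2
    refine ⟨m, ?_⟩
    rw [← hm, ← inner_act_zpow]
    simp only [ivec, EuclideanSpace.inner_eq_star_dotProduct, star_trivial]
    exact dotProduct_comm _ _)
  set f : (Fin n → ℝ) → E n := fun x => act (A ^ (-i)) (WithLp.toLp 2 x) with hf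
  have hfc : Continuous f := (act_cont _).comp (PiLp.continuous_toLp 2 _)
  have h2 : w = f (act (A ^ i) w).ofLp := by
    simp only [hf, WithLp.toLp_ofLp]
    rw [act_zpow_neg_cancel hA]
  rw [h2]
  refine map_mem_closure hfc h1 ?_
  rintro x ⟨p, q, rfl⟩
  refine ⟨p, -q, ?_⟩
  have e3 : (WithLp.toLp 2 ((fun a => (p a : ℝ)) + (A ^ (i - j)) *ᵥ fun a => (q a : ℝ)) : E n) =
      ivec p + act (A ^ (i - j)) (ivec q) := by
    rfl
  simp only [hf]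
  rw [e3, act_add, ← act_zpow_add hA, ivec_neg, act_neg, sub_neg_eq_add]
  congr 3
  ring

theorem I_zero {A : Matrix (Fin n) (Fin n) ℝ} (hA : A.det ≠ 0) {Φ Ψ : E n → ℂ}
    (hΦ : MemLp Φ 2 volume) (hΨ : MemLp Ψ 2 volume) (i j : ℤ)
    (horth : ∀ k k' : Fin n → ℤ, ∫ ξ, conj (faff A Φ i k ξ) * faff A Ψ j k' ξ = 0) (w : E n)
    (hw : ∀ p q : Fin n → ℤ, act (Aᵀ ^ i) (ivec p) = act (Aᵀ ^ j) (ivec q) →
      ∃ m : ℤ, ⟪w, act (Aᵀ ^ i) (ivec p)⟫ = m) :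
    ∫ ξ, G A Φ Ψ i j ξ * ee ⟪w, ξ⟫ = 0 := by
  have h1 := mem_closure_lattice hA i j w hw
  have h2 : IsClosed {w : E n | ∫ ξ, G A Φ Ψ i j ξ * ee ⟪w, ξ⟫ = 0} :=
    isClosed_eq (I_cont (G_integrable hA hΦ hΨ i j)) continuous_const
  have h3 : {x : E n | ∃ k k' : Fin n → ℤ,
      x = act (A ^ (-i)) (ivec k) - act (A ^ (-j)) (ivec k')} ⊆
      {w : E n | ∫ ξ, G A Φ Ψ i j ξ * ee ⟪w, ξ⟫ = 0} := by
    rintro x ⟨k, k', rfl⟩
    exact I_lattice hA i j horth k k'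
  exact closure_minimal h3 h2 h1

end ND

open ND

/-- Module ND. -/
theorem product_coeff {n : ℕ} {A : Matrix (Fin n) (Fin n) ℝ} (hA : A.det ≠ 0) {Φ Ψ : E n → ℂ}
    (hΦ : MemLp Φ 2 volume) (hΨ : MemLp Ψ 2 volume) (i j : ℤ)
    (horth : ∀ k k' : Fin n → ℤ, ∫ ξ, conj (faff A Φ i k ξ) * faff A Ψ j k' ξ = 0) (w : E n)
    (hw : ∀ p q : Fin n → ℤ, act (Aᵀ ^ i) (ivec p) = act (Aᵀ ^ j) (ivec q) →
      ∃ m : ℤ, ⟪w, act (Aᵀ ^ i) (ivec p)⟫ = m) :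
    ∫ ξ, conj (Φ (act (Aᵀ ^ (-i)) ξ)) * Ψ (act (Aᵀ ^ (-j)) ξ) * ee ⟪w, ξ⟫ = 0 :=
  I_zero hA hΦ hΨ i j horth w hw

/-- Module ND. -/
theorem half_space_orth {n : ℕ} {A : Matrix (Fin n) (Fin n) ℝ} (hA : A.det ≠ 0) {Φ Ψ : E n → ℂ}
    (hΦ : MemLp Φ 2 volume) (hΨ : MemLp Ψ 2 volume) (i j : ℤ)
    (horth : ∀ k k' : Fin n → ℤ, ∫ ξ, conj (faff A Φ i k ξ) * faff A Ψ j k' ξ = 0) (v : E n)
    (hv : ∀ p q : Fin n → ℤ, act (Aᵀ ^ i) (ivec p) = act (Aᵀ ^ j) (ivec q) →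
      ⟪v, act (Aᵀ ^ i) (ivec p)⟫ = 0) (R : ℝ) (k k' : Fin n → ℤ) :
    ∫ ξ in {ξ : E n | R ≤ ⟪v, ξ⟫}, conj (faff A Φ i k ξ) * faff A Ψ j k' ξ = 0 := by
  set u : E n := act (A ^ (-i)) (ivec k) - act (A ^ (-j)) (ivec k') with hu
  refine marginal_zero v (fun ξ => conj (faff A Φ i k ξ) * faff A Ψ j k' ξ) ?_ ?_ R
  · have e : (fun ξ => conj (faff A Φ i k ξ) * faff A Ψ j k' ξ) = fun ξ =>
        (((|A.det| ^ (-(i : ℝ) / 2) : ℝ) : ℂ) * ((|A.det| ^ (-(j : ℝ) / 2) : ℝ) : ℂ)) *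
          (G A Φ Ψ i j ξ * ee ⟪u, ξ⟫) := by
      funext ξ
      exact faff_mul A Φ Ψ i j k k' ξ
    rw [e]
    exact (ee_smul_integrable (G_integrable hA hΦ hΨ i j) _).const_mul _
  · intro s
    simp only [faff_mul, ← hu]
    have e : ∀ ξ : E n, (((|A.det| ^ (-(i : ℝ) / 2) : ℝ) : ℂ) *
        ((|A.det| ^ (-(j : ℝ) / 2) : ℝ) : ℂ)) * (G A Φ Ψ i j ξ * ee ⟪u, ξ⟫) * ee (s * ⟪v, ξ⟫) =
        (((|A.det| ^ (-(i : ℝ) / 2) : ℝ) : ℂ) * ((|A.det| ^ (-(j : ℝ) / 2) : ℝ) : ℂ)) *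
          (G A Φ Ψ i j ξ * ee ⟪u + s • v, ξ⟫) := by
      intro ξ
      rw [inner_add_left, real_inner_smul_left, ee_add]
      ring
    simp only [e]
    rw [integral_const_mul, I_zero hA hΦ hΨ i j horth (u + s • v), mul_zero]
    intro p q hpq
    obtain ⟨m1, hm1⟩ := inner_ivec k p
    obtain ⟨m2, hm2⟩ := inner_ivec k' q
    refine ⟨m1 - m2, ?_⟩
    rw [inner_add_left, real_inner_smul_left, hv p q hpq, mul_zero, add_zero, hu, inner_sub_left,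
      inner_lattice hA, hm1, hpq, inner_lattice hA, hm2]
    push_cast
    ring

/-- Module ND. -/
theorem product_zero {n : ℕ} {A : Matrix (Fin n) (Fin n) ℝ} (hA : A.det ≠ 0) {Φ Ψ : E n → ℂ}
    (hΦ : MemLp Φ 2 volume) (hΨ : MemLp Ψ 2 volume) (hΦc : Continuous Φ) (hΨc : Continuous Ψ)
    (i j : ℤ)
    (horth : ∀ k k' : Fin n → ℤ, ∫ ξ, conj (faff A Φ i k ξ) * faff A Ψ j k' ξ = 0)
    (hv : ∀ p q : Fin n → ℤ, act (Aᵀ ^ i) (ivec p) = act (Aᵀ ^ j) (ivec q) → p = 0) (ξ : E n) :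
    Φ (act (Aᵀ ^ (-i)) ξ) * Ψ (act (Aᵀ ^ (-j)) ξ) = 0 := by
  have hI : ∀ w : E n, ∫ ξ, G A Φ Ψ i j ξ * ee ⟪w, ξ⟫ = 0 := by
    intro w
    refine I_zero hA hΦ hΨ i j horth w fun p q hpq => ⟨0, ?_⟩
    rw [hv p q hpq, ivec_zero, act_zero, inner_zero_right]
    simp
  have hGi : Integrable (G A Φ Ψ i j) := G_integrable hA hΦ hΨ i j
  have hGc : Continuous (G A Φ Ψ i j) :=
    (Complex.continuous_conj.comp (hΦc.comp (act_cont _))).mul (hΨc.comp (act_cont _))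
  have hF : 𝓕 (G A Φ Ψ i j) = 0 := by
    funext w
    rw [Real.fourier_eq]
    have e : ∀ x : E n, Real.fourierChar (-⟪x, w⟫) • G A Φ Ψ i j x =
        G A Φ Ψ i j x * ee ⟪-w, x⟫ := by
      intro x
      rw [Circle.smul_def, Real.fourierChar_apply, smul_eq_mul, mul_comm]
      congr 1
      unfold ee
      rw [inner_neg_left, real_inner_comm w x]
      congr 1
      push_cast
      ring
    simp only [e]
    exact hI (-w)
  have h0 := hGc.fourierInv_fourier_eq hGi (by rw [hF]; exact integrable_zero _ _ _)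
  rw [hF] at h0
  have h1 : G A Φ Ψ i j = 0 := by
    rw [← h0]
    funext w
    rw [Real.fourierInv_eq]
    simp
  have h2 : G A Φ Ψ i j ξ = 0 := by rw [h1]; rfl
  unfold G at h2
  rcases mul_eq_zero.1 h2 with h3 | h3
  · rw [(map_eq_zero _).1 h3, zero_mul]
  · rw [h3, mul_zero]

end Wav
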