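import Pool.Agent.Helper98.Wav.ND
import Pool.Agent.Helper26.Wav.NB
import Pool.Agent.Helper40.Wav.NH
import Pool.Agent.Helper5.Wav.NF

/-!
# Module N1 of MP_d629b1_an: no well-localized orthonormal wavelet when the set of scales splits
-/

open MeasureTheory
open scoped FourierTransform RealInnerProductSpace Matrix ENNReal ComplexConjugate

noncomputable section

namespace Wav

namespace N1

variable {n L : ℕ} {A : Matrix (Fin n) (Fin n) ℝ}

theorem act_cont (M : Matrix (Fin n) (Fin n) ℝ) : Continuous (act M : E n → E n) := by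
  rw [act_eq]
  exact LinearMap.continuous_of_finiteDimensional _

/-- Orthonormality in terms of integrals. -/
theorem orth_of_ne {Ψ : Fin L → E n → ℂ}
    (b : HilbertBasis (Fin L × ℤ × (Fin n → ℤ)) ℂ (Lp ℂ 2 (volume : Measure (E n))))
    (hb : ∀ l j k, (b (l, j, k) : E n → ℂ) =ᵐ[volume] faff A (Ψ l) j k)
    (l l' : Fin L) {i j : ℤ} (hij : i ≠ j) (k k' : Fin n → ℤ) :
    ∫ ξ, conj (faff A (Ψ l) i k ξ) * faff A (Ψ l') j k' ξ = 0 := by
  have h1 : inner ℂ (b (l, i, k)) (b (l', j, k')) = 0 := by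
    refine b.orthonormal.2 ?_
    intro h
    apply hij
    exact (Prod.ext_iff.1 (Prod.ext_iff.1 h).2).1
  rw [L2.inner_def] at h1
  rw [← h1]
  refine integral_congr_ae ?_
  filter_upwards [hb l i k, hb l' j k'] with ξ h2 h3
  rw [h2, h3, RCLike.inner_apply, mul_comm]

/-- The Fourier coefficients of a basis function. -/
theorem orth_basis {Ψ : Fin L → E n → ℂ}
    (b : HilbertBasis (Fin L × ℤ × (Fin n → ℤ)) ℂ (Lp ℂ 2 (volume : Measure (E n))))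
    (hb : ∀ l j k, (b (l, j, k) : E n → ℂ) =ᵐ[volume] faff A (Ψ l) j k)
    (l l' : Fin L) {i j : ℤ} (hij : i ≠ j) (k k' : Fin n → ℤ) :
    ∫ ξ, conj (faff A (Ψ l) i k ξ) * (b (l', j, k') : E n → ℂ) ξ = 0 := by
  rw [← orth_of_ne b hb l l' hij k k']
  refine integral_congr_ae ?_
  filter_upwards [hb l' j k'] with ξ h3
  rw [h3]

/-- If the basis function vanishes almost everywhere on a set, so does `Ψ` on an open subset. -/
theorem vanish_of_ae {Ψ : Fin L → E n → ℂ} (hdet : A.det ≠ 0) (hΨc : ∀ l, Continuous (Ψ l))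
    (b : HilbertBasis (Fin L × ℤ × (Fin n → ℤ)) ℂ (Lp ℂ 2 (volume : Measure (E n))))
    (hb : ∀ l j k, (b (l, j, k) : E n → ℂ) =ᵐ[volume] faff A (Ψ l) j k)
    (l : Fin L) (j : ℤ) (k : Fin n → ℤ) {S U : Set (E n)} (hU : IsOpen U) (hUS : U ⊆ S)
    (h : ∀ᵐ ξ : E n, ξ ∈ S → (b (l, j, k) : E n → ℂ) ξ = 0) :
    ∀ ξ ∈ U, Ψ l (act (Aᵀ ^ (-j)) ξ) = 0 := by
  have hD : 0 < |A.det| := abs_pos.2 hdet
  have h1 : ∀ᵐ ξ : E n, ξ ∉ U ∩ {ξ | Ψ l (act (Aᵀ ^ (-j)) ξ) ≠ 0} := by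
    filter_upwards [h, hb l j k] with ξ h2 h3 h4
    have h5 := h2 (hUS h4.1)
    rw [h3] at h5
    unfold faff at h5
    have h6 : ((|A.det| ^ (-(j : ℝ) / 2) : ℝ) : ℂ) ≠ 0 := by
      exact_mod_cast (Real.rpow_pos_of_pos hD _).ne'
    have h7 : ee (-⟪act (A ^ (-j)) (ivec k), ξ⟫) ≠ 0 := by
      rw [← norm_pos_iff, ee_norm]
      exact one_pos
    have h8 := (mul_eq_zero.1 h5).resolve_left (mul_ne_zero h6 h7)
    rw [Matrix.transpose_zpow] at h8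
    exact h4.2 h8
  have hopen : IsOpen (U ∩ {ξ | Ψ l (act (Aᵀ ^ (-j)) ξ) ≠ 0}) :=
    hU.inter (isOpen_ne_fun ((hΨc l).comp (act_cont _)) continuous_const)
  have h2 : (volume : Measure (E n)) (U ∩ {ξ | Ψ l (act (Aᵀ ^ (-j)) ξ) ≠ 0}) = 0 :=
    measure_eq_zero_iff_ae_notMem.2 h1
  have h3 := hopen.eq_empty_of_measure_zero h2
  intro ξ hξ
  by_contra h4
  have h5 : ξ ∈ U ∩ {ξ | Ψ l (act (Aᵀ ^ (-j)) ξ) ≠ 0} := ⟨hξ, h4⟩
  rw [h3] at h5
  exact h5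

theorem isOpen_half (v : E n) (R : ℝ) : IsOpen {ξ : E n | R < ⟪v, ξ⟫} :=
  isOpen_lt continuous_const (Continuous.inner continuous_const continuous_id)

theorem measurable_half (v : E n) (R : ℝ) : MeasurableSet {ξ : E n | R ≤ ⟪v, ξ⟫} :=
  (isClosed_le continuous_const (Continuous.inner continuous_const continuous_id)).measurableSet

/-- Small bounds on a half space force the functions to vanish there. -/
theorem half_step {Ψ : Fin L → E n → ℂ} (hdet : A.det ≠ 0) (hΨc : ∀ l, Continuous (Ψ l))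
    (hΨ2 : ∀ l, MemLp (Ψ l) 2 volume)
    (b : HilbertBasis (Fin L × ℤ × (Fin n → ℤ)) ℂ (Lp ℂ 2 (volume : Measure (E n))))
    (hb : ∀ l j k, (b (l, j, k) : E n → ℂ) =ᵐ[volume] faff A (Ψ l) j k)
    (F : Set ℤ) (v : E n)
    (hperp : ∀ i ∈ F, ∀ j ∉ F, ∀ p q : Fin n → ℤ,
      act (Aᵀ ^ i) (ivec p) = act (Aᵀ ^ j) (ivec q) → ⟪v, act (Aᵀ ^ i) (ivec p)⟫ = 0)
    {C : ℝ≥0∞} (hC : C ≠ ∞)
    (hlat : ∀ l (T : Set (E n)) (a : ℝ≥0∞), (∀ ξ ∈ T, ‖Ψ l ξ‖ₑ ≤ a) → ∀ η : E n,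
      ∑' m : Fin n → ℤ, T.indicator (fun ξ => ‖Ψ l ξ‖ₑ ^ 2) (η + ivec m) ≤ C * a)
    (a : ℤ → ℝ≥0∞) (R : ℝ)
    (ha : ∀ l, ∀ j ∈ F, ∀ ξ : E n, R ≤ ⟪v, ξ⟫ → ‖Ψ l (act (Aᵀ ^ (-j)) ξ)‖ₑ ≤ a j)
    (hsmall : (L : ℝ≥0∞) * C * ∑' j, a j < 1) :
    ∀ l, ∀ j ∈ F, ∀ ξ : E n, R < ⟪v, ξ⟫ → Ψ l (act (Aᵀ ^ (-j)) ξ) = 0 := by
  intro l j hj
  have h1 := slab_zero hdet hΨc b hb F (measurable_half v R)
    (fun l i hi k l' j hj k' => half_space_orth hdet (hΨ2 l) (hΨ2 l') i j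
      (fun k k' => orth_of_ne b hb l l' (fun h : i = j => hj (h ▸ hi)) k k') v
      (fun p q hpq => hperp i hi j hj p q hpq) R k k')
    hC hlat a (fun l j hj ξ hξ => ha l j hj ξ hξ) hsmall (b (l, j, 0))
    (fun l' j' k' hj' => orth_basis b hb l' l (fun h : j' = j => hj' (h ▸ hj)) k' 0)
  exact vanish_of_ae hdet hΨc b hb l j 0 (isOpen_half v R)
    (fun ξ (hξ : R < ⟪v, ξ⟫) => hξ.le) h1

/-- The functions of the scales in `F` vanish on an open half space. -/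
theorem half_vanish (hA : Expansive A) {Ψ : Fin L → E n → ℂ} (hΨc : ∀ l, Continuous (Ψ l))
    (hΨ2 : ∀ l, MemLp (Ψ l) 2 volume)
    (b : HilbertBasis (Fin L × ℤ × (Fin n → ℤ)) ℂ (Lp ℂ 2 (volume : Measure (E n))))
    (hb : ∀ l j k, (b (l, j, k) : E n → ℂ) =ᵐ[volume] faff A (Ψ l) j k)
    {N C : ℝ} (hN : (n : ℝ) < N) (hΨ : ∀ l ξ, ‖Ψ l ξ‖ ≤ C * (1 + ‖ξ‖) ^ (-N))
    {C' α : ℝ} (hα : 0 < α) (hH : ∀ l ξ ξ', ‖Ψ l ξ - Ψ l ξ'‖ ≤ C' * ‖ξ - ξ'‖ ^ α)
    (F : Set ℤ) (hFb : BddAbove F) (v : E n) (hv : v ≠ 0)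
    (hperp : ∀ i ∈ F, ∀ j ∉ F, ∀ p q : Fin n → ℤ,
      act (Aᵀ ^ i) (ivec p) = act (Aᵀ ^ j) (ivec q) → ⟪v, act (Aᵀ ^ i) (ivec p)⟫ = 0) :
    ∀ l, ∀ j ∈ F, ∀ ξ : E n, 0 < ⟪v, ξ⟫ → Ψ l (act (Aᵀ ^ (-j)) ξ) = 0 := by
  have hdet : A.det ≠ 0 := expansive_det hA
  have hN0 : 0 < N := lt_of_le_of_lt (Nat.cast_nonneg n) hN
  have hv0 : 0 < ‖v‖ := norm_pos_iff.2 hv
  -- the lattice constant
  choose K hK1 hK2 using fun l => lattice_sup hN (hΨ l)
  set M : ℝ≥0∞ := ∑ l, K l with hM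
  have hM1 : M ≠ ∞ := ENNReal.sum_ne_top.2 fun l _ => hK1 l
  have hlat : ∀ l (T : Set (E n)) (a : ℝ≥0∞), (∀ ξ ∈ T, ‖Ψ l ξ‖ₑ ≤ a) → ∀ η : E n,
      ∑' m : Fin n → ℤ, T.indicator (fun ξ => ‖Ψ l ξ‖ₑ ^ 2) (η + ivec m) ≤ M * a := by
    intro l T a hT η
    refine (hK2 l T a hT η).trans ?_
    gcongr
    exact Finset.single_le_sum (f := K) (fun _ _ => zero_le) (Finset.mem_univ l)
  obtain ⟨ε, hε0, hε1⟩ := ENNReal.exists_nnreal_pos_mul_lt
    (a := (L : ℝ≥0∞) * M) (b := 1) (ENNReal.mul_ne_top (ENNReal.natCast_ne_top L) hM1)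
    one_ne_zero
  have hsm : ∀ a : ℤ → ℝ≥0∞, ∑' j, a j ≤ ε → (L : ℝ≥0∞) * M * ∑' j, a j < 1 := by
    intro a ha
    refine lt_of_le_of_lt ?_ hε1
    rw [mul_comm]
    gcongr
  have hε : (0 : ℝ≥0∞) < ε := by exact_mod_cast hε0
  -- the property
  set P : ℝ → Prop := fun R => ∀ l, ∀ j ∈ F, ∀ ξ : E n, R ≤ ⟪v, ξ⟫ →
    Ψ l (act (Aᵀ ^ (-j)) ξ) = 0 with hP
  have hmono : ∀ R R', R ≤ R' → P R → P R' := fun R R' h h1 l j hj ξ hξ =>
    h1 l j hj ξ (h.trans hξ)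
  -- first step
  have hstart : ∃ R, P R := by
    obtain ⟨j0, hj0⟩ := hFb
    obtain ⟨R0, hR0, a, ha1, ha2⟩ := far_small hA hN0 hΨ j0 hε
    refine ⟨R0 * ‖v‖ + 1, fun l j hj ξ hξ => ?_⟩
    refine half_step hdet hΨc hΨ2 b hb F v hperp hM1 hlat a (R0 * ‖v‖) ?_ (hsm a ha1) l j hj ξ
      (by linarith)
    intro l j hj ξ hξ
    refine ha2 l j (hj0 hj) ξ ?_
    have h1 : ⟪v, ξ⟫ ≤ ‖v‖ * ‖ξ‖ := real_inner_le_norm v ξ
    have h2 : R0 * ‖v‖ ≤ ‖ξ‖ * ‖v‖ := by linarith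
    exact le_of_mul_le_mul_right h2 hv0
  -- continuation
  have hcont : ∀ r0 : ℝ, 0 < r0 → ∃ δ : ℝ, 0 < δ ∧ ∀ R, r0 ≤ R → P R → P (R - δ) := by
    intro r0 hr0
    obtain ⟨δ0, hδ0, a, ha1, ha2⟩ := near_small hA hN0 hΨ hα hH (r := r0 / (2 * ‖v‖))
      (by positivity) hε
    set δ' : ℝ := min (δ0 * ‖v‖) (r0 / 2) with hδ'
    have hδ'0 : 0 < δ' := lt_min (by positivity) (by positivity)
    refine ⟨δ' / 2, by positivity, fun R hR hPR l j hj ξ hξ => ?_⟩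
    refine half_step hdet hΨc hΨ2 b hb F v hperp hM1 hlat a (R - δ') ?_ (hsm a ha1) l j hj ξ
      (by linarith)
    intro l j hj ξ hξ
    rcases le_or_gt R ⟪v, ξ⟫ with h | h
    · rw [hPR l j hj ξ h]
      simp
    · have e1 : δ' ≤ δ0 * ‖v‖ := min_le_left _ _
      have e2 : δ' ≤ r0 / 2 := min_le_right _ _
      have hr : r0 / (2 * ‖v‖) ≤ ‖ξ‖ := by
        rw [div_le_iff₀ (by positivity)]
        have h1 : ⟪v, ξ⟫ ≤ ‖v‖ * ‖ξ‖ := real_inner_le_norm v ξ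
        nlinarith
      set t : ℝ := (R - ⟪v, ξ⟫) / ‖v‖ ^ 2 with ht
      have ht0 : 0 ≤ t := by
        apply div_nonneg (by linarith) (by positivity)
      refine ha2 l j ξ (ξ + t • v) hr ?_ ?_
      · rw [sub_add_cancel_left, norm_neg, norm_smul, Real.norm_of_nonneg ht0]
        have h3 : t * ‖v‖ * ‖v‖ = R - ⟪v, ξ⟫ := by
          rw [ht]
          field_simp
        have h4 : t * ‖v‖ * ‖v‖ ≤ δ0 * ‖v‖ := by
          rw [h3]
          linarith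
        exact le_of_mul_le_mul_right h4 hv0
      · refine hPR l j hj _ ?_
        rw [inner_add_right, real_inner_smul_right, real_inner_self_eq_norm_sq]
        have h3 : t * ‖v‖ ^ 2 = R - ⟪v, ξ⟫ := by
          rw [ht]
          field_simp
        rw [h3]
        linarith
  -- conclusion
  have hall : ∀ R, 0 < R → P R := by
    intro Rs hRs
    obtain ⟨R1, hR1⟩ := hstart
    obtain ⟨δ, hδ, hstep⟩ := hcont Rs hRs
    have hind : ∀ m : ℕ, P (max Rs (R1 - m * δ)) := by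
      intro m
      induction m with
      | zero =>
        refine hmono R1 _ ?_ hR1
        simp
      | succ m ih =>
        refine hmono _ _ ?_ (hstep _ (le_max_left _ _) ih)
        rcases max_cases Rs (R1 - m * δ) with ⟨h1, _⟩ | ⟨h1, _⟩
        · rw [h1]
          exact le_trans (by linarith) (le_max_left _ _)
        · rw [h1]
          refine le_trans (le_of_eq ?_) (le_max_right _ _)
          push_cast
          ring
    obtain ⟨m, hm⟩ := exists_nat_ge ((R1 - Rs) / δ)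
    have h1 := hind m
    rw [div_le_iff₀ hδ] at hm
    rwa [max_eq_left (by linarith)] at h1
  intro l j hj ξ hξ
  exact hall _ hξ l j hj ξ le_rfl

end N1

open N1

/-- Module N1. -/
theorem no_wavelet_of_bounded {n L : ℕ} {A : Matrix (Fin n) (Fin n) ℝ} (hA : Expansive A)
    {N : ℝ} (hN : (n : ℝ) < N) (F : Set ℤ) (hF : F.Nonempty) (hFb : BddAbove F) (v : E n)
    (hv : v ≠ 0)
    (hperp : ∀ i ∈ F, ∀ j ∉ F, ∀ p q : Fin n → ℤ,
      act (Aᵀ ^ i) (ivec p) = act (Aᵀ ^ j) (ivec q) → ⟪v, act (Aᵀ ^ i) (ivec p)⟫ = 0)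
    (ψ : Fin L → E n → ℂ) (hψ : ∀ l, WellLocalized N (ψ l)) : ¬ IsONWavelet A ψ := by
  intro hW
  have hdet : A.det ≠ 0 := expansive_det hA
  have hN0 : 0 < N := lt_of_le_of_lt (Nat.cast_nonneg n) hN
  have hint : ∀ l, Integrable (ψ l) := fun l => (hψ l).integrable hN
  obtain ⟨b, hb⟩ := (transfer hdet hint (fun l => (hψ l).memLp)).1 hW
  set Ψ : Fin L → E n → ℂ := fun l => 𝓕 (ψ l) with hΨdef
  have hΨc : ∀ l, Continuous (Ψ l) := fun l =>
    VectorFourier.fourierIntegral_continuous (μ := (volume : Measure (E n)))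
      Real.continuous_fourierChar (L := innerₗ (E n)) continuous_inner (hint l)
  have hΨ2 : ∀ l, MemLp (Ψ l) 2 volume := fun l =>
    (memLp_congr_ae (fourier_toLp (hint l) (hψ l).memLp)).1 (Lp.memLp _)
  -- decay
  choose K hK1 hK2 using fun l => (hψ l).fourier_bound hN
  set C : ℝ := ∑ l, K l with hC
  have hΨ : ∀ l ξ, ‖Ψ l ξ‖ ≤ C * (1 + ‖ξ‖) ^ (-N) := by
    intro l ξ
    refine (hK2 l ξ).trans ?_
    gcongr
    exact Finset.single_le_sum (f := K) (fun l _ => (hK1 l).le) (Finset.mem_univ l)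
  have hC0 : 0 ≤ C := Finset.sum_nonneg fun l _ => (hK1 l).le
  have hbd : ∀ l ξ, ‖Ψ l ξ‖ ≤ C := by
    intro l ξ
    refine (hΨ l ξ).trans ?_
    have : (1 + ‖ξ‖) ^ (-N) ≤ 1 :=
      Real.rpow_le_one_of_one_le_of_nonpos (by linarith [norm_nonneg ξ]) (by linarith)
    nlinarith
  -- Hoelder continuity
  choose H α hα0 hα1 hH using fun l => fourier_holder (ψ l) (hint l) hN (hψ l).decay
  obtain ⟨β, hβ0, hβ⟩ : ∃ β : ℝ, 0 < β ∧ ∀ l, β ≤ α l := by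
    have h1 : ∀ᶠ β in nhdsWithin (0 : ℝ) (Set.Ioi 0), ∀ l, β ≤ α l :=
      Filter.eventually_all.2 fun l => by
        filter_upwards [Ioc_mem_nhdsGT (hα0 l)] with β hβ
        exact hβ.2
    obtain ⟨β, hβ1, hβ2⟩ := (h1.and self_mem_nhdsWithin).exists
    exact ⟨β, hβ2, hβ1⟩
  set H' : ℝ := 2 * C + ∑ l, |H l| with hH'
  have hHol : ∀ l ξ ξ', ‖Ψ l ξ - Ψ l ξ'‖ ≤ H' * ‖ξ - ξ'‖ ^ β := by
    intro l ξ ξ'
    have hs : |H l| ≤ ∑ l, |H l| :=
      Finset.single_le_sum (f := fun l => |H l|) (fun l _ => abs_nonneg _) (Finset.mem_univ l)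
    have hp : 0 ≤ ‖ξ - ξ'‖ ^ β := Real.rpow_nonneg (norm_nonneg _) _
    rcases le_total 1 ‖ξ - ξ'‖ with h | h
    · have h1 : ‖Ψ l ξ - Ψ l ξ'‖ ≤ 2 * C := by
        refine (norm_sub_le _ _).trans ?_
        linarith [hbd l ξ, hbd l ξ']
      have h2 : 1 ≤ ‖ξ - ξ'‖ ^ β := Real.one_le_rpow h hβ0.le
      have h3 : 2 * C ≤ H' := by
        have := (abs_nonneg (H l)).trans hs
        linarith
      have h4 : 0 ≤ H' := by linarith
      nlinarith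
    · have h1 := hH l ξ ξ'
      have h2 : ‖ξ - ξ'‖ ^ α l ≤ ‖ξ - ξ'‖ ^ β := by
        rcases (norm_nonneg (ξ - ξ')).eq_or_lt with h0 | h0
        · rw [← h0, Real.zero_rpow (hα0 l).ne', Real.zero_rpow hβ0.ne']
        · exact Real.rpow_le_rpow_of_exponent_ge h0 h (hβ l)
      have h3 : H l * ‖ξ - ξ'‖ ^ α l ≤ |H l| * ‖ξ - ξ'‖ ^ β :=
        mul_le_mul (le_abs_self _) h2 (Real.rpow_nonneg (norm_nonneg _) _) (abs_nonneg _)
      have h4 : |H l| * ‖ξ - ξ'‖ ^ β ≤ H' * ‖ξ - ξ'‖ ^ β := by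
        refine mul_le_mul_of_nonneg_right ?_ hp
        linarith
      exact h1.trans (h3.trans h4)
  have hp1 := half_vanish hA hΨc hΨ2 b hb hN hΨ hβ0 hHol F hFb v hv hperp
  have hp2 := half_vanish hA hΨc hΨ2 b hb hN hΨ hβ0 hHol F hFb (-v) (neg_ne_zero.2 hv)
    (fun i hi j hj p q hpq => by rw [inner_neg_left, hperp i hi j hj p q hpq, neg_zero])
  -- everything vanishes
  have hzero : ∀ l, ∀ j ∈ F, ∀ ξ : E n, Ψ l (act (Aᵀ ^ (-j)) ξ) = 0 := by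
    intro l j hj ξ
    rcases lt_trichotomy 0 ⟪v, ξ⟫ with h | h | h
    · exact hp1 l j hj ξ h
    · have hcl : IsClosed {ξ : E n | Ψ l (act (Aᵀ ^ (-j)) ξ) = 0} :=
        isClosed_eq ((hΨc l).comp (act_cont _)) continuous_const
      have h1 : Filter.Tendsto (fun t : ℝ => ξ + t • v) (nhdsWithin 0 (Set.Ioi 0))
          (nhds (ξ + (0 : ℝ) • v)) :=
        ((continuous_const.add (continuous_id.smul continuous_const)).tendsto 0).mono_left
          nhdsWithin_le_nhds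
      have h2 := hcl.mem_of_tendsto h1 (by
        filter_upwards [self_mem_nhdsWithin] with t ht
        refine hp1 l j hj _ ?_
        rw [inner_add_right, real_inner_smul_right, real_inner_self_eq_norm_sq, ← h, zero_add]
        have : 0 < ‖v‖ := norm_pos_iff.2 hv
        have ht' : (0 : ℝ) < t := ht
        positivity)
      rw [zero_smul, add_zero] at h2
      exact h2
    · refine hp2 l j hj ξ ?_
      rw [inner_neg_left]
      linarith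
  obtain ⟨j, hj⟩ := hF
  rcases Nat.eq_zero_or_pos L with hL | hL
  · subst hL
    have h1 : ∀ f : Lp ℂ 2 (volume : Measure (E n)), f = 0 := by
      intro f
      have h2 : b.repr f = 0 := by
        ext i
        exact i.1.elim0
      exact (LinearIsometryEquiv.map_eq_zero_iff b.repr).1 h2
    have h3 := h1 (indicatorConstLp 2 (measurableSet_ball (x := (0 : E n)) (ε := 1))
      (measure_ball_lt_top.ne) (1 : ℂ))
    have h4 := norm_indicatorConstLp (p := 2) (μ := (volume : Measure (E n)))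
      (hs := measurableSet_ball (x := (0 : E n)) (ε := 1)) (hμs := measure_ball_lt_top.ne)
      (c := (1 : ℂ)) (by norm_num) (by norm_num)
    rw [h3, norm_zero, norm_one, one_mul] at h4
    have h5 : 0 < (volume : Measure (E n)).real (Metric.ball (0 : E n) 1) :=
      ENNReal.toReal_pos (Metric.measure_ball_pos _ _ one_pos).ne' measure_ball_lt_top.ne
    have h6 := Real.rpow_pos_of_pos h5 (1 / (2 : ℝ≥0∞).toReal)
    linarith
  · set l : Fin L := ⟨0, hL⟩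
    have h1 : b (l, j, 0) = 0 := by
      rw [Lp.eq_zero_iff_ae_eq_zero]
      filter_upwards [hb l j 0] with ξ h2
      rw [h2]
      unfold faff
      have h3 : 𝓕 (ψ l) (act (Aᵀ ^ (-j)) ξ) = 0 := hzero l j hj ξ
      rw [Matrix.transpose_zpow, h3, mul_zero]
      rfl
    have h2 := b.orthonormal.1 (l, j, 0)
    rw [h1, norm_zero] at h2
    exact zero_ne_one h2

end Wav
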